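import Pool.Agent.N641.VB.Stm

/-!
# Project VB: weak sums of pure algebras (`S_WS`) (helper614)
-/

set_option autoImplicit false

namespace Pool.Agent.N614.VB

open Pool.Agent.N641.VB

section gen

variable {A A' : Type} [BooleanAlgebra A] [BooleanAlgebra A']

/-- The ideals over the zero ideal. -/
abbrev D {A : Type} [BooleanAlgebra A] (n : ℕ) (a : A) : Prop := DD (fun b : A => b = ⊥) n a

lemma D_mono {n : ℕ} {a b : A} (hab : b ≤ a) (h : D n a) : D n b := by
  cases n with
  | zero =>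
    have h1 : a = ⊥ := h
    rw [h1, le_bot_iff] at hab
    exact hab
  | succ n =>
    obtain ⟨s, h1, h2⟩ := h
    exact ⟨s, h1, hab.trans h2⟩

lemma D_bot (n : ℕ) : D n (⊥ : A) := by
  cases n with
  | zero => exact rfl
  | succ n => exact ⟨∅, fun c hc => absurd hc (Finset.notMem_empty c), bot_le⟩

lemma D_sup {n : ℕ} {a b : A} (ha : D n a) (hb : D n b) : D n (a ⊔ b) := by
  classical
  cases n with
  | zero =>
    have h1 : a = ⊥ := ha
    have h2 : b = ⊥ := hb
    show a ⊔ b = ⊥
    rw [h1, h2, sup_idem]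
  | succ n =>
    obtain ⟨s, h1, h2⟩ := ha
    obtain ⟨t, h3, h4⟩ := hb
    refine ⟨s ∪ t, fun c hc => ?_, ?_⟩
    · rcases Finset.mem_union.1 hc with h | h
      · exact h1 c h
      · exact h3 c h
    · rw [Finset.sup_union]
      exact sup_le_sup h2 h4

lemma D_succ {n : ℕ} {a : A} (h : D n a) : D (n + 1) a := by
  refine ⟨{a}, fun c hc d hd => Or.inl ?_, ?_⟩
  · rw [Finset.mem_singleton] at hc
    subst hc
    exact D_mono hd h
  · rw [Finset.sup_singleton]
    exact le_rfl

lemma D_le {m n : ℕ} (hmn : m ≤ n) {a : A} (h : D m a) : D n a := by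
  induction n with
  | zero =>
    obtain rfl : m = 0 := Nat.le_zero.1 hmn
    exact h
  | succ n ih =>
    rcases Nat.eq_or_lt_of_le hmn with rfl | h1
    · exact h
    · exact D_succ (ih (Nat.lt_succ_iff.1 h1))

lemma AL_mono {n : ℕ} {a b : A} (hab : b ≤ a) (h : AL (fun b : A => b = ⊥) n a) :
    AL (fun b : A => b = ⊥) n b := fun c hc => h c (hc.trans hab)

/-- An isomorphism onto a principal ideal. -/
structure Emb (φ : A → A') : Prop where
  le : ∀ b c, φ b ≤ φ c ↔ b ≤ c
  dn : ∀ a c', c' ≤ φ a → ∃ b, φ b = c'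
  bot : φ ⊥ = ⊥
  sup : ∀ b c, φ (b ⊔ c) = φ b ⊔ φ c
  sdiff : ∀ b c, φ (b \ c) = φ b \ φ c

lemma Emb.inj {φ : A → A'} (h : Emb φ) {a b : A} (hab : φ a = φ b) : a = b :=
  le_antisymm ((h.le _ _).1 hab.le) ((h.le _ _).1 hab.ge)

lemma Emb.fsup {φ : A → A'} (h : Emb φ) {ι : Type} (s : Finset ι) (f : ι → A) :
    φ (s.sup f) = s.sup fun i => φ (f i) := by
  classical
  induction s using Finset.induction_on with
  | empty => simp [h.bot]
  | insert i s hi ih => rw [Finset.sup_insert, Finset.sup_insert, h.sup, ih]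

lemma Emb.D {φ : A → A'} (h : Emb φ) : ∀ (n : ℕ) (a : A), D n (φ a) ↔ D n a := by
  classical
  intro n
  induction n with
  | zero =>
    intro a
    constructor
    · intro h1
      have h2 : φ a = ⊥ := h1
      rw [← h.bot] at h2
      exact h.inj h2
    · intro h1
      have h2 : a = ⊥ := h1
      show φ a = ⊥
      rw [h2, h.bot]
  | succ n ih =>
    intro a
    constructor
    · rintro ⟨s, h1, h2⟩
      choose ψ hψ using fun c : A' => h.dn a (c ⊓ φ a) inf_le_right
      refine ⟨s.image ψ, ?_, ?_⟩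
      · intro c0 hc0 d hd
        obtain ⟨c, hc, rfl⟩ := Finset.mem_image.1 hc0
        have h3 : φ (ψ c) ≤ c := by rw [hψ]; exact inf_le_left
        have h4 : φ d ≤ φ (ψ c) := (h.le _ _).2 hd
        rcases h1 c hc (φ d) (h4.trans h3) with h5 | h5
        · exact Or.inl ((ih d).1 h5)
        · refine Or.inr ((ih _).1 ?_)
          rw [h.sdiff]
          exact D_mono (sdiff_le_sdiff_right h3) h5
      · rw [← h.le, Finset.sup_image, h.fsup]
        have h3 : (s.sup fun i => φ ((id ∘ ψ) i)) = s.sup id ⊓ φ a := by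
          rw [Finset.sup_inf_distrib_right]
          exact Finset.sup_congr rfl fun c _ => hψ c
        rw [h3]
        exact le_inf h2 le_rfl
    · rintro ⟨s, h1, h2⟩
      refine ⟨s.image φ, ?_, ?_⟩
      · intro c' hc' d' hd'
        obtain ⟨c, hc, rfl⟩ := Finset.mem_image.1 hc'
        obtain ⟨d, rfl⟩ := h.dn c d' hd'
        rw [← h.sdiff]
        rcases h1 c hc d ((h.le _ _).1 hd') with h5 | h5
        · exact Or.inl ((ih d).2 h5)
        · exact Or.inr ((ih _).2 h5)
      · rw [Finset.sup_image]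
        have h3 := (h.le _ _).2 h2
        rw [h.fsup] at h3
        exact h3

lemma Emb.AL {φ : A → A'} (h : Emb φ) (n : ℕ) (a : A) :
    AL (fun b : A' => b = ⊥) n (φ a) ↔ AL (fun b : A => b = ⊥) n a := by
  constructor
  · intro h1 c hc hc'
    obtain ⟨d', hd', h2, h3⟩ := h1 (φ c) ((h.le _ _).2 hc) fun h2 => hc' ((h.D n c).1 h2)
    obtain ⟨d, rfl⟩ := h.dn c d' hd'
    refine ⟨d, (h.le _ _).1 hd', fun h4 => h2 ((h.D n d).2 h4), fun h4 => h3 ?_⟩
    rw [← h.sdiff]
    exact (h.D n _).2 h4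
  · intro h1 c' hc' hc''
    obtain ⟨c, rfl⟩ := h.dn a c' hc'
    obtain ⟨d, hd, h2, h3⟩ := h1 c ((h.le _ _).1 hc') fun h2 => hc'' ((h.D n c).2 h2)
    refine ⟨φ d, (h.le _ _).2 hd, fun h4 => h2 ((h.D n d).1 h4), fun h4 => h3 ?_⟩
    rw [← h.sdiff] at h4
    exact (h.D n _).1 h4

end gen

section ws

variable {E : ℕ → Type} [∀ i, BooleanAlgebra (E i)]

/-- The weak sum: the functions which are almost everywhere `⊥` or almost everywhere `⊤`. -/
def L (E : ℕ → Type) [∀ i, BooleanAlgebra (E i)] : BooleanSubalgebra (∀ i, E i) where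
  carrier := {x | {i | x i ≠ ⊥}.Finite ∨ {i | x i ≠ ⊤}.Finite}
  supClosed' := by
    rintro x (hx | hx) y (hy | hy)
    · refine Or.inl ((hx.union hy).subset fun i hi => ?_)
      by_contra hc
      simp only [Set.mem_union, Set.mem_ofPred_eq, not_or, not_not] at hc
      exact hi (by rw [Pi.sup_apply, hc.1, hc.2, sup_idem])
    · refine Or.inr (hy.subset fun i hi hc => hi ?_)
      rw [Pi.sup_apply, hc, sup_top_eq]
    · refine Or.inr (hx.subset fun i hi hc => hi ?_)
      rw [Pi.sup_apply, hc, top_sup_eq]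
    · refine Or.inr (hx.subset fun i hi hc => hi ?_)
      rw [Pi.sup_apply, hc, top_sup_eq]
  infClosed' := by
    rintro x (hx | hx) y (hy | hy)
    · refine Or.inl (hx.subset fun i hi hc => hi ?_)
      rw [Pi.inf_apply, hc, bot_inf_eq]
    · refine Or.inl (hx.subset fun i hi hc => hi ?_)
      rw [Pi.inf_apply, hc, bot_inf_eq]
    · refine Or.inl (hy.subset fun i hi hc => hi ?_)
      rw [Pi.inf_apply, hc, inf_bot_eq]
    · refine Or.inr ((hx.union hy).subset fun i hi => ?_)
      by_contra hc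
      simp only [Set.mem_union, Set.mem_ofPred_eq, not_or, not_not] at hc
      exact hi (by rw [Pi.inf_apply, hc.1, hc.2, inf_idem])
  compl_mem' := by
    rintro x (hx | hx)
    · refine Or.inr (hx.subset fun i hi hc => hi ?_)
      rw [Pi.compl_apply, hc, compl_bot]
    · refine Or.inl (hx.subset fun i hi hc => hi ?_)
      rw [Pi.compl_apply, hc, compl_top]
  bot_mem' := Or.inl (by
    have : {i | (⊥ : ∀ i, E i) i ≠ ⊥} = ∅ := by
      ext i
      simp
    rw [this]
    exact Set.finite_empty)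

lemma mem_L {x : ∀ i, E i} : x ∈ L E ↔ {i | x i ≠ ⊥}.Finite ∨ {i | x i ≠ ⊤}.Finite := Iff.rfl

instance [∀ i, Countable (E i)] : Countable (L E) := by
  classical
  let f : (Σ S : Finset ℕ, (∀ i : S, E i) × Bool) → ∀ i, E i := fun q i =>
    if h : i ∈ q.1 then q.2.1 ⟨i, h⟩ else if q.2.2 then ⊤ else ⊥
  have h1 : (Set.range f).Countable := Set.countable_range f
  have h2 : ((L E : Set (∀ i, E i))).Countable := by
    refine h1.mono ?_
    rintro x (hx | hx)
    · refine ⟨⟨hx.toFinset, fun i => x i, false⟩, ?_⟩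
      funext i
      by_cases h : x i = ⊥
      · simp [f, h]
      · simp [f, h]
    · refine ⟨⟨hx.toFinset, fun i => x i, true⟩, ?_⟩
      funext i
      by_cases h : x i = ⊤
      · simp [f, h]
      · simp [f, h]
  exact h2.to_subtype

/-- The embedding of a summand. -/
def sg (i : ℕ) (e : E i) : L E := ⟨Function.update ⊥ i e, Or.inl (by
  refine (Set.finite_singleton i).subset fun j hj => ?_
  by_contra hc
  exact hj (Function.update_of_ne hc _ _))⟩

lemma sg_same (i : ℕ) (e : E i) : (sg i e : ∀ j, E j) i = e := Function.update_self _ _ _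

lemma sg_ne (i : ℕ) (e : E i) {j : ℕ} (h : j ≠ i) : (sg i e : ∀ j, E j) j = ⊥ :=
  Function.update_of_ne h _ _

lemma L_le {x y : L E} : x ≤ y ↔ ∀ i, (x : ∀ j, E j) i ≤ (y : ∀ j, E j) i := Iff.rfl

lemma L_ext {x y : L E} (h : ∀ i, (x : ∀ j, E j) i = (y : ∀ j, E j) i) : x = y :=
  Subtype.ext (funext h)

lemma L_sup (x y : L E) (i : ℕ) : ((x ⊔ y : L E) : ∀ j, E j) i = (x : ∀ j, E j) i ⊔ (y : ∀ j, E j) i := rfl

lemma L_sdiff (x y : L E) (i : ℕ) : ((x \ y : L E) : ∀ j, E j) i = (x : ∀ j, E j) i \ (y : ∀ j, E j) i := rfl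

lemma L_bot (i : ℕ) : ((⊥ : L E) : ∀ j, E j) i = ⊥ := rfl

lemma L_top (i : ℕ) : ((⊤ : L E) : ∀ j, E j) i = ⊤ := rfl

lemma emb (i : ℕ) : Emb (sg i : E i → L E) where
  le b c := by
    rw [L_le]
    constructor
    · intro h
      have := h i
      rwa [sg_same, sg_same] at this
    · intro h j
      by_cases hj : j = i
      · subst hj
        rwa [sg_same, sg_same]
      · rw [sg_ne i b hj]
        exact bot_le
  dn a c' h := by
    refine ⟨(c' : ∀ j, E j) i, L_ext fun j => ?_⟩
    by_cases hj : j = i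
    · subst hj
      rw [sg_same]
    · rw [sg_ne i _ hj]
      have := L_le.1 h j
      rw [sg_ne i a hj, le_bot_iff] at this
      exact this.symm
  bot := L_ext fun j => by
    by_cases hj : j = i
    · subst hj
      rw [sg_same, L_bot]
    · rw [sg_ne i _ hj, L_bot]
  sup b c := L_ext fun j => by
    rw [L_sup]
    by_cases hj : j = i
    · subst hj
      rw [sg_same, sg_same, sg_same]
    · rw [sg_ne i _ hj, sg_ne i _ hj, sg_ne i _ hj, sup_idem]
  sdiff b c := L_ext fun j => by
    rw [L_sdiff]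
    by_cases hj : j = i
    · subst hj
      rw [sg_same, sg_same, sg_same]
    · rw [sg_ne i _ hj, sg_ne i _ hj, sg_ne i _ hj, sdiff_self]

lemma sg_le {i : ℕ} {x : L E} : sg i ((x : ∀ j, E j) i) ≤ x := by
  rw [L_le]
  intro j
  by_cases hj : j = i
  · subst hj
    rw [sg_same]
  · rw [sg_ne i _ hj]
    exact bot_le

lemma sg_top_le {i : ℕ} {x : L E} (h : (x : ∀ j, E j) i = ⊤) : sg i ⊤ ≤ x := by
  have := sg_le (i := i) (x := x)
  rwa [h] at this

/-- Elements with finite support. -/
lemma D_fin (n : ℕ) (T : Finset ℕ) : ∀ b : L E, (∀ i, i ∉ T → (b : ∀ j, E j) i = ⊥) →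
    (∀ i, D n (sg i ((b : ∀ j, E j) i))) → D n b := by
  classical
  induction T using Finset.induction_on with
  | empty =>
    intro b h1 _
    have : b = ⊥ := L_ext fun i => by rw [L_bot]; exact h1 i (Finset.notMem_empty i)
    rw [this]
    exact D_bot n
  | insert i T hi ih =>
    intro b h1 h2
    have e1 : ∀ j, ((b \ sg i ⊤ : L E) : ∀ j, E j) j ≤ (b : ∀ j, E j) j := fun j => by
      rw [L_sdiff]
      exact sdiff_le
    have h3 : D n (b \ sg i ⊤) := by
      refine ih _ (fun j hj => ?_) fun j => ?_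
      · rw [L_sdiff]
        by_cases hji : j = i
        · subst hji
          rw [sg_same, sdiff_top]
        · rw [h1 j (by rw [Finset.mem_insert]; tauto), bot_sdiff]
      · exact D_mono (((emb j).le _ _).2 (e1 j)) (h2 j)
    refine D_mono ?_ (D_sup (h2 i) h3)
    rw [L_le]
    intro j
    rw [L_sup, L_sdiff]
    by_cases hji : j = i
    · subst hji
      rw [sg_same]
      exact le_sup_left
    · rw [sg_ne i _ hji, sg_ne i _ hji, sdiff_bot]
      exact le_sup_right

/-- **S_WS.** -/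
theorem WS : S_WS := by
  intro E _ _ g hg hP
  have hgi : ∀ i, i ≤ g i := hg.id_le
  have hnt : ∀ i, (⊤ : E i) ≠ ⊥ := by
    intro i h
    apply (hP i).top
    rw [h]
    exact D_bot _
  -- a large index
  have hbig : ∀ (x : L E) (N : ℕ), {i | (x : ∀ j, E j) i ≠ ⊤}.Finite →
      ∃ i, (x : ∀ j, E j) i = ⊤ ∧ N < g i := by
    intro x N hx
    obtain ⟨i, hi⟩ := (hx.union (Set.finite_Iic N)).infinite_compl.nonempty
    simp only [Set.mem_compl_iff, Set.mem_union, Set.mem_ofPred_eq, Set.mem_Iic, not_or, not_not,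
      not_le] at hi
    exact ⟨i, hi.1, hi.2.trans_le (hgi i)⟩
  refine ⟨L E, inferInstance, inferInstance, ⟨⊥, ⊤, fun h => hnt 0 ?_⟩, ?_⟩
  · have := congrArg (fun x : L E => (x : ∀ j, E j) 0) h
    exact this.symm
  ext n
  constructor
  · rintro ⟨b, -, h1, h2, h3⟩
    rcases b.2 with hb | hb
    · -- finite support
      obtain ⟨i, hi⟩ : ∃ i, ¬ D n (sg i ((b : ∀ j, E j) i)) := by
        by_contra hc
        push Not at hc
        exact h1 (D_fin n hb.toFinset b (fun i hi => by simpa using hi) hc)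
      have h4 : AL (fun b : E i => b = ⊥) n ((b : ∀ j, E j) i) :=
        ((emb i).AL n _).1 (AL_mono sg_le h2)
      have h5 : ¬ D n ((b : ∀ j, E j) i) := fun h => hi (((emb i).D n _).2 h)
      refine ⟨i, ?_⟩
      rcases lt_trichotomy n (g i) with h6 | h6 | h6
      · exact absurd ((hP i).low n h6 _ h4) h5
      · exact h6.symm
      · exfalso
        apply hi
        exact h3 _ sg_le (g i) h6 (((emb i).AL (g i) _).2 (AL_mono le_top (hP i).al))
    · exfalso
      obtain ⟨i, hi, hn⟩ := hbig b n hb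
      have h4 : AL (fun b : E i => b = ⊥) n ⊤ :=
        ((emb i).AL n _).1 (AL_mono (sg_top_le hi) h2)
      exact (hP i).top (D_le hn.le ((hP i).low n hn _ h4))
  · rintro ⟨i, rfl⟩
    refine ⟨sg i ⊤, le_top, ?_, ?_, ?_⟩
    · intro h
      exact (hP i).top (((emb i).D _ _).1 h)
    · exact ((emb i).AL _ _).2 (hP i).al
    · intro c hc m hm h
      obtain ⟨c', rfl⟩ := (emb i).dn _ c hc
      exact ((emb i).D _ _).2 (D_le hm.le ((hP i).low m hm c' (((emb i).AL _ _).1 h)))

end ws

end Pool.Agent.N614.VB
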